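import Pool.Agent.helper14.AU.Spec

/-! # au: CG, the gadgets can be completed -/

set_option autoImplicit false

namespace Pool.Agent.helper14.AU

open N68a2faeb

theorem CG_area (a b c : Pt) : area a b c = |dt a b c| / 2 := rfl

theorem CG_sq {p q : Pt} (h : p ≠ q) : 0 < (q.1 - p.1) ^ 2 + (q.2 - p.2) ^ 2 := by
  rcases eq_or_ne p.1 q.1 with h1 | h1
  · have h2 : p.2 ≠ q.2 := fun h2 => h (Prod.ext h1 h2)
    have h3 : q.2 - p.2 ≠ 0 := sub_ne_zero.2 h2.symm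
    positivity
  · have h3 : q.1 - p.1 ≠ 0 := sub_ne_zero.2 h1.symm
    positivity

theorem CG_neq (p q : Pt) (h : p ≠ q) (e : ℝ) (he : 0 ≤ e) : ∃ o : Pt, area p q o = e := by
  have hs := CG_sq h
  set s := (q.1 - p.1) ^ 2 + (q.2 - p.2) ^ 2 with hsd
  refine ⟨(p.1 - 2 * e / s * (q.2 - p.2), p.2 + 2 * e / s * (q.1 - p.1)), ?_⟩
  have h1 : dt p q (p.1 - 2 * e / s * (q.2 - p.2), p.2 + 2 * e / s * (q.1 - p.1)) = 2 * e := by
    have h2 : dt p q (p.1 - 2 * e / s * (q.2 - p.2), p.2 + 2 * e / s * (q.1 - p.1)) =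
        2 * e / s * s := by
      unfold dt
      rw [hsd]
      ring
    rw [h2, div_mul_cancel₀ _ hs.ne']
  rw [CG_area, h1, abs_of_nonneg (by linarith)]
  ring

/-- the points `r + x u + y n` -/
noncomputable def CG_W (p q r : Pt) (x y : ℝ) : Pt :=
  (r.1 + x * (q.1 - p.1) - y * (q.2 - p.2), r.2 + x * (q.2 - p.2) + y * (q.1 - p.1))

theorem CG_W1 (p q r : Pt) (x y : ℝ) (h : dt p q r = 0) :
    area p q (CG_W p q r x y) = |y| * ((q.1 - p.1) ^ 2 + (q.2 - p.2) ^ 2) / 2 := by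
  have h1 : dt p q (CG_W p q r x y) = y * ((q.1 - p.1) ^ 2 + (q.2 - p.2) ^ 2) := by
    have h2 : dt p q (CG_W p q r x y) =
        dt p q r + y * ((q.1 - p.1) ^ 2 + (q.2 - p.2) ^ 2) := by
      unfold dt CG_W
      ring
    rw [h2, h, zero_add]
  rw [CG_area, h1, abs_mul, abs_of_nonneg (a := (q.1 - p.1) ^ 2 + (q.2 - p.2) ^ 2) (by positivity)]

theorem CG_W2 (p q r : Pt) (x y x' y' : ℝ) :
    area r (CG_W p q r x y) (CG_W p q r x' y') =
      |x * y' - x' * y| * ((q.1 - p.1) ^ 2 + (q.2 - p.2) ^ 2) / 2 := by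
  have h1 : dt r (CG_W p q r x y) (CG_W p q r x' y') =
      (x * y' - x' * y) * ((q.1 - p.1) ^ 2 + (q.2 - p.2) ^ 2) := by
    unfold dt CG_W
    ring
  rw [CG_area, h1, abs_mul, abs_of_nonneg (a := (q.1 - p.1) ^ 2 + (q.2 - p.2) ^ 2) (by positivity)]

theorem CG_W0 (p q r : Pt) : CG_W p q r 0 0 = r := by
  unfold CG_W
  ext <;> simp

theorem CG_Winj (p q r : Pt) (h : p ≠ q) (x y x' y' : ℝ)
    (he : CG_W p q r x y = CG_W p q r x' y') : x = x' ∧ y = y' := by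
  have hs := CG_sq h
  have h1 := congrArg Prod.fst he
  have h2 := congrArg Prod.snd he
  simp only [CG_W] at h1 h2
  have h3 : (x - x') * ((q.1 - p.1) ^ 2 + (q.2 - p.2) ^ 2) = 0 := by
    linear_combination (q.1 - p.1) * h1 + (q.2 - p.2) * h2
  have h4 : (y - y') * ((q.1 - p.1) ^ 2 + (q.2 - p.2) ^ 2) = 0 := by
    linear_combination (q.1 - p.1) * h2 - (q.2 - p.2) * h1
  exact ⟨sub_eq_zero.1 ((mul_eq_zero.1 h3).resolve_right hs.ne'),
    sub_eq_zero.1 ((mul_eq_zero.1 h4).resolve_right hs.ne')⟩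

theorem CG_col (p q r : Pt) (h : p ≠ q) (hr : dt p q r = 0) (a1 a2 b1 b2 e1 e2 : ℝ)
    (ha1 : 0 ≤ a1) (ha2 : 0 ≤ a2) (hb1 : 0 ≤ b1) (hb2 : 0 ≤ b2) (he1 : 0 ≤ e1) (he2 : 0 ≤ e2) :
    ∃ f g h o o' : Pt, area p q f = a1 ∧ area p q g = a2 ∧
      area r f h = b1 ∧ area r g h = b2 ∧ area f g o = e1 ∧ area r h o' = e2 := by
  have hs := CG_sq h
  set s := (q.1 - p.1) ^ 2 + (q.2 - p.2) ^ 2 with hsd
  by_cases h0 : a1 = 0 ∧ a2 = 0 ∧ b1 = 0 ∧ b2 = 0
  · obtain ⟨rfl, rfl, rfl, rfl⟩ := h0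
    obtain ⟨o, ho⟩ := CG_neq (CG_W p q r 0 0) (CG_W p q r 1 0)
      (fun he => zero_ne_one (CG_Winj p q r h _ _ _ _ he).1) e1 he1
    obtain ⟨o', ho'⟩ := CG_neq r (CG_W p q r 1 0)
      (fun he => zero_ne_one (CG_Winj p q r h 0 0 1 0 (by rw [CG_W0]; exact he)).1) e2 he2
    refine ⟨CG_W p q r 0 0, CG_W p q r 1 0, CG_W p q r 1 0, o, o', ?_, ?_, ?_, ?_, ho, ho'⟩
    · rw [CG_W1 p q r _ _ hr]
      simp
    · rw [CG_W1 p q r _ _ hr]
      simp
    · rw [CG_W2]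
      simp
    · rw [CG_W2]
      simp
  · have hA : ∀ a : ℝ, 0 ≤ a → |2 * a / s| * s / 2 = a := by
      intro a ha
      rw [abs_of_nonneg (by positivity)]
      field_simp
    have hne : CG_W p q r (2 * b1 / s) (2 * a1 / s) ≠ CG_W p q r (-(2 * b2 / s)) (-(2 * a2 / s)) := by
      intro he
      obtain ⟨e3, e4⟩ := CG_Winj p q r h _ _ _ _ he
      apply h0
      have p1 : 0 ≤ 2 * b1 / s := by positivity
      have p2 : 0 ≤ 2 * b2 / s := by positivity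
      have p3 : 0 ≤ 2 * a1 / s := by positivity
      have p4 : 0 ≤ 2 * a2 / s := by positivity
      have q1 : 2 * b1 / s = 0 := by linarith
      have q2 : 2 * b2 / s = 0 := by linarith
      have q3 : 2 * a1 / s = 0 := by linarith
      have q4 : 2 * a2 / s = 0 := by linarith
      have key : ∀ a : ℝ, 2 * a / s = 0 → a = 0 := by
        intro a ha
        rw [div_eq_zero_iff] at ha
        have := ha.resolve_right hs.ne'
        linarith
      exact ⟨key _ q3, key _ q4, key _ q1, key _ q2⟩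
    obtain ⟨o, ho⟩ := CG_neq _ _ hne e1 he1
    obtain ⟨o', ho'⟩ := CG_neq r (CG_W p q r 0 1)
      (fun he => zero_ne_one (CG_Winj p q r h 0 0 0 1 (by rw [CG_W0]; exact he)).2) e2 he2
    refine ⟨CG_W p q r (2 * b1 / s) (2 * a1 / s), CG_W p q r (-(2 * b2 / s)) (-(2 * a2 / s)),
      CG_W p q r 0 1, o, o', ?_, ?_, ?_, ?_, ho, ho'⟩
    · rw [CG_W1 p q r _ _ hr]
      exact hA a1 ha1
    · rw [CG_W1 p q r _ _ hr, abs_neg]
      exact hA a2 ha2
    · rw [CG_W2, mul_one, zero_mul, sub_zero]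
      exact hA b1 hb1
    · rw [CG_W2, mul_one, zero_mul, sub_zero, abs_neg]
      exact hA b2 hb2

theorem CG_nc (p q r : Pt) (h : dt p q r ≠ 0) (b1 b2 e : ℝ) (hb1 : 0 ≤ b1) (hb2 : 0 ≤ b2)
    (he : 0 ≤ e) :
    ∃ s1 s2 : Pt, area p q s1 = b1 ∧ area p r s2 = b2 ∧ area p s1 s2 = e := by
  set D := dt p q r with hD
  have hD' : (q.1 - p.1) * (r.2 - p.2) - (r.1 - p.1) * (q.2 - p.2) = D := rfl
  refine ⟨(p.1 + (q.1 - p.1) + 2 * b1 / D * (r.1 - p.1),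
      p.2 + (q.2 - p.2) + 2 * b1 / D * (r.2 - p.2)),
    (p.1 + 2 * b2 / D * (q.1 - p.1) + (2 * e + 4 * b1 * b2 / D) / D * (r.1 - p.1),
      p.2 + 2 * b2 / D * (q.2 - p.2) + (2 * e + 4 * b1 * b2 / D) / D * (r.2 - p.2)), ?_, ?_, ?_⟩
  · have h1 : dt p q (p.1 + (q.1 - p.1) + 2 * b1 / D * (r.1 - p.1),
        p.2 + (q.2 - p.2) + 2 * b1 / D * (r.2 - p.2)) = 2 * b1 := by
      have h2 : dt p q (p.1 + (q.1 - p.1) + 2 * b1 / D * (r.1 - p.1),
          p.2 + (q.2 - p.2) + 2 * b1 / D * (r.2 - p.2)) = 2 * b1 / D * D := by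
        rw [← hD']
        unfold dt
        ring
      rw [h2, div_mul_cancel₀ _ h]
    rw [CG_area, h1, abs_of_nonneg (by linarith)]
    ring
  · have h1 : dt p r (p.1 + 2 * b2 / D * (q.1 - p.1) +
          (2 * e + 4 * b1 * b2 / D) / D * (r.1 - p.1),
        p.2 + 2 * b2 / D * (q.2 - p.2) + (2 * e + 4 * b1 * b2 / D) / D * (r.2 - p.2)) =
        -(2 * b2) := by
      have h2 : ∀ c y : ℝ, dt p r (p.1 + c * (q.1 - p.1) + y * (r.1 - p.1),
          p.2 + c * (q.2 - p.2) + y * (r.2 - p.2)) = -(c * D) := by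
        intro c y
        rw [← hD']
        unfold dt
        ring
      rw [h2, div_mul_cancel₀ _ h]
    rw [CG_area, h1, abs_neg, abs_of_nonneg (by linarith)]
    ring
  · have h1 : ∀ c c' y : ℝ, dt p (p.1 + (q.1 - p.1) + c * (r.1 - p.1),
        p.2 + (q.2 - p.2) + c * (r.2 - p.2)) (p.1 + c' * (q.1 - p.1) + y * (r.1 - p.1),
        p.2 + c' * (q.2 - p.2) + y * (r.2 - p.2)) = (y - c * c') * D := by
      intro c c' y
      rw [← hD']
      unfold dt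
      ring
    have h2 : ((2 * e + 4 * b1 * b2 / D) / D - 2 * b1 / D * (2 * b2 / D)) * D = 2 * e := by
      field_simp
      ring
    rw [CG_area, h1, h2, abs_of_nonneg (by linarith)]
    ring

/-- CG. -/
theorem CG : CG_stmt :=
  ⟨fun p q r h hr a1 a2 b1 b2 e1 e2 ha1 ha2 hb1 hb2 he1 he2 =>
    CG_col p q r h hr a1 a2 b1 b2 e1 e2 ha1 ha2 hb1 hb2 he1 he2, CG_neq,
    fun p q r h b1 b2 e hb1 hb2 he => CG_nc p q r h b1 b2 e hb1 hb2 he⟩

end Pool.Agent.helper14.AU
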